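import Mathlib
import Pool.Agent.HLC742.Core
import Pool.Agent.W651.HI.Asm

/-!
# Hereditarily locally connected separable metric spaces are at most one-dimensional

The proof has two parts. First (`Pool.Agent.HLC742.R2`) a locally connected separable metric space
`X` all of whose connected subsets are locally connected contains a countable set `C` such that
`X \ C` satisfies condition (R_2). Then the theorem `Pool.Agent.S12751.result` of the starting
files, which we use through its final lemma `Pool.Agent.W651.HI.final`, gives the dimension.
-/

set_option autoImplicit false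

open Set Topology TopologicalSpace

namespace Pool.Agent.Results.MP_a1dcbe_gt.HLCDimLeOne

/-- every connected subset, with the subspace topology, is locally connected -/
def HereditarilyLocallyConnected (X : Type) [TopologicalSpace X] : Prop :=
  ∀ S : Set X, IsConnected S → LocallyConnectedSpace S

/-- A connected separable metric space, or more generally a locally connected separable metric
space, every connected subset of which is locally connected, has dimension at most one. -/
theorem result (X : Type) [MetricSpace X] [SeparableSpace X]
    (hcon : ConnectedSpace X ∨ LocallyConnectedSpace X) (hX : HereditarilyLocallyConnected X) :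
    smallInductiveDimension X ≤ 1 := by
  have hsc : SecondCountableTopology X := UniformSpace.secondCountable_of_separable X
  have hX' : Pool.Agent.HLC742.HLC X := by
    intro S hS
    rcases S.eq_empty_or_nonempty with rfl | hne
    · exact ⟨fun x => absurd x.2 (notMem_empty _)⟩
    · exact hX S ⟨hne, hS⟩
  have hlc : LocallyConnectedSpace X := by
    rcases hcon with hc | hl
    · have h1 : LocallyConnectedSpace (univ : Set X) := hX univ isConnected_univ
      exact (Homeomorph.Set.univ X).symm.isOpenEmbedding.locallyConnectedSpace
    · exact hl
  obtain ⟨C, hC, hB⟩ := Pool.Agent.HLC742.R2 hX'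
  have key := Pool.Agent.W651.HI.final
    (Pool.Agent.W651.HI.main Pool.Agent.W374.HI.Size.main Pool.Agent.W374.HI.Lim.main
      Pool.Agent.W160.HI.Bump.main)
    (Pool.Agent.W240.HI.main Pool.Agent.W160.HI.Crook.main) Pool.Agent.W837.HIEmb.main
    X C hC hB
  rw [show (1 : WithBot ℕ∞) = ((1 : ℕ) : WithBot ℕ∞) from rfl, smallInductiveDimension_le_iff]
  refine HasSmallInductiveDimensionLT.succ 1
    {U : Set X | IsOpen U ∧ HasSmallInductiveDimensionLT (frontier U) 1} ?_ (fun U hU => hU.2)
  apply isTopologicalBasis_of_isOpen_of_nhds (fun U hU => hU.1)
  intro x V hxV hV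
  obtain ⟨U, hU1, hU2, hU3, hU4⟩ := key x V hV hxV
  refine ⟨U, ⟨hU1, ?_⟩, hU2, hU3⟩
  rw [hasSmallInductiveDimensionLT_one_iff]
  apply isTopologicalBasis_of_isOpen_of_nhds (fun W hW => hW.isOpen)
  intro y O hyO hO
  obtain ⟨W, hW1, hW2, hW3⟩ := hU4 y O hO hyO
  exact ⟨W, hW1, hW2, hW3⟩

end Pool.Agent.Results.MP_a1dcbe_gt.HLCDimLeOne
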